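import Pool.Agent.MHP.StmtsS

/-!
# Squad MHP: the gadget is bipartite (SPA)
-/

set_option autoImplicit false

open scoped Classical

namespace Pool.Agent.MHP.H32

open Pool.Agent.HMT Pool.Agent.MHP

/-- colours of the core vertices of a spider -/
noncomputable def kc (J : Type) (T : ℕ) : KX J T → Bool
  | none => decide (¬ Even T)
  | some (_, a) => decide (Even (T - (a : ℕ)))

theorem kc_ne {J : Type} {T : ℕ} {k k' : KX J T} (h : SpAdj T k k') : kc J T k ≠ kc J T k' := by
  cases h with
  | c i =>
    simp only [kc]
    by_cases h : Even T <;> simp [h]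
  | s i a =>
    have ha : (a : ℕ) < T := a.2
    intro hh
    have h0 : (Even (T - ((a.castSucc : Fin (T + 1)) : ℕ))) ↔ (Even (T - ((a.succ : Fin (T + 1)) : ℕ))) :=
      decide_eq_decide.1 hh
    rw [Fin.val_castSucc, Fin.val_succ] at h0
    have h1 : T - (a : ℕ) = (T - ((a : ℕ) + 1)) + 1 := by omega
    rw [h1, Nat.even_add_one] at h0
    by_cases h : Even (T - ((a : ℕ) + 1))
    · exact (h0.2 h) h
    · exact h (h0.1 h)

theorem spa : SpaStmt := by
  intro J _ T B GG U _ ρ H hρ hc
  obtain ⟨c0⟩ := hc
  -- colouring with values in Bool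
  let c : U → Bool := fun u => decide (c0 u = 0)
  have hcne : ∀ u v, H.Adj u v → c u ≠ c v := by
    intro u v huv h
    have h1 := c0.valid huv
    have h2 : (c0 u = 0) ↔ (c0 v = 0) := by
      have h3 : decide (c0 u = 0) = decide (c0 v = 0) := h
      exact decide_eq_decide.1 h3
    apply h1
    have key : ∀ x y : Fin 2, ((x = 0) ↔ (y = 0)) → x = y := by decide
    exact key _ _ h2
  -- recolouring
  let c' : U → Bool := fun u =>
    if h : ∃ j, H.Reachable (ρ j) u then xor (c u) (c (ρ h.choose)) else c u
  have hhub : ∀ j, c' (ρ j) = false := by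
    intro j
    have h : ∃ k, H.Reachable (ρ k) (ρ j) := ⟨j, SimpleGraph.Reachable.refl _⟩
    have h1 : h.choose = j := hρ _ _ h.choose_spec
    simp only [c', dif_pos h, h1]
    simp
  have hc'ne : ∀ u v, H.Adj u v → c' u ≠ c' v := by
    intro u v huv
    by_cases h : ∃ j, H.Reachable (ρ j) u
    · have h' : ∃ j, H.Reachable (ρ j) v := by
        obtain ⟨j, hj⟩ := h
        exact ⟨j, hj.trans huv.reachable⟩
      have h1 : h.choose = h'.choose := by
        apply hρ
        exact (h.choose_spec.trans huv.reachable).trans h'.choose_spec.symm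
      simp only [c', dif_pos h, dif_pos h', h1]
      intro h2
      exact hcne u v huv (Bool.xor_left_inj.1 h2)
    · have h' : ¬ ∃ j, H.Reachable (ρ j) v := by
        rintro ⟨j, hj⟩
        exact h ⟨j, hj.trans huv.symm.reachable⟩
      simp only [c', dif_neg h, dif_neg h']
      exact hcne u v huv
  -- the colouring of the core vertices
  let d : CX T GG → Bool := fun x => match x with
    | none => true
    | some (_, k) => kc J T k
  let col : Ver T B GG U → Bool := fun x => match x with
    | .inl ⟨x, none⟩ => d x
    | .inl ⟨x, some _⟩ => !(d x)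
    | .inr u => c' u
  have hcol : ∀ x y, Rl T B GG ρ H x y → col x ≠ col y := by
    intro x y hxy
    cases hxy with
    | leaf x t =>
      simp [col]
    | spi g k k' h =>
      exact kc_ne h
    | leg g i =>
      have h1 : col (.inl ⟨some (g, some (i, Fin.last T)), none⟩) = true := by
        simp [col, d, kc]
      have h2 : col (.inr (ρ (g.1 i))) = false := hhub _
      rw [h1, h2]
      decide
    | oh j =>
      have h1 : col (.inl ⟨none, none⟩) = true := rfl
      have h2 : col (.inr (ρ j)) = false := hhub _
      rw [h1, h2]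
      decide
    | pc u u' h =>
      exact hc'ne u u' h
  have hC : (Gr T B GG ρ H).Coloring Bool := by
    refine SimpleGraph.Coloring.mk col ?_
    intro x y hxy
    have h1 := hxy
    simp only [Gr, SimpleGraph.fromRel_adj] at h1
    obtain ⟨_, h2 | h2⟩ := h1
    · exact hcol x y h2
    · exact (hcol y x h2).symm
  have := hC.colorable
  simpa using this

end Pool.Agent.MHP.H32
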